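import Pool.Agent.helper97.IRO.Spec

set_option autoImplicit false

/-!
# Row CT8: commutators are not cofinal
-/

open MeasureTheory Pool.Agent.LOF

namespace Pool.Agent.IRO

/-- the non-cofinal elements of `H` -/
def CT8_N {G : Type} [Group G] {P : G → Prop} (hP : Cone P) (H : Subgroup G)
    (h5 : ∀ g h : G, g ∈ H → h ∈ H → ¬ Cof P H g → ¬ Cof P H h → ¬ Cof P H (g * h)) :
    Subgroup G where
  carrier := {g | g ∈ H ∧ ¬ Cof P H g}
  mul_mem' := fun {a b} ha hb => ⟨H.mul_mem ha.1 hb.1, h5 a b ha.1 hb.1 ha.2 hb.2⟩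
  one_mem' := ⟨H.one_mem, fun h => h.ne_one hP rfl⟩
  inv_mem' := fun {a} ha => ⟨H.inv_mem ha.1, fun h => ha.2 (by
    have h1 := h.inv
    rwa [inv_inv] at h1)⟩

theorem CT8_mem {G : Type} [Group G] {P : G → Prop} {hP : Cone P} {H : Subgroup G}
    {h5 : ∀ g h : G, g ∈ H → h ∈ H → ¬ Cof P H g → ¬ Cof P H h → ¬ Cof P H (g * h)} {g : G} :
    g ∈ CT8_N hP H h5 ↔ g ∈ H ∧ ¬ Cof P H g := Iff.rfl

theorem CT8 (hHOL : HOL_stmt) (h3 : CT3_stmt) (h4 : CT4_stmt) (h5 : CT5_stmt) (h6 : CT6_stmt)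
    (h7 : CT7_stmt) : CT8_stmt := by
  intro G _ P hP hC H c hc
  obtain ⟨N, hN⟩ : ∃ N : Subgroup G, ∀ g, g ∈ N ↔ g ∈ H ∧ ¬ Cof P H g :=
    ⟨CT8_N hP H (h5 G P hP hC H), fun g => Iff.rfl⟩
  have F7 : ∀ u n : G, P u → Cof P H u → n ∈ N → P (u * n) ∧ P (n * u) := fun u n hu hcu hn =>
    h7 G P hP hC H n u ((hN n).1 hn).1 ((hN n).1 hn).2 hcu hu
  have F8 : ∀ u v : G, P u → Cof P H u → P v → Cof P H v → u * v ∉ N := by
    intro u v hu hcu hv hcv hn
    have h8 := (F7 u _ hu hcu (N.inv_mem hn)).2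
    have e : (u * v)⁻¹ * u = v⁻¹ := by group
    rw [e] at h8
    exact hP.anti v hv h8
  have hnorm : (N.subgroupOf H).Normal := by
    constructor
    intro n hn k
    rw [Subgroup.mem_subgroupOf] at hn ⊢
    rw [hN] at hn ⊢
    refine ⟨(k * n * k⁻¹).2, fun hcof => hn.2 ?_⟩
    have h8 := h4 G P hP hC H _ (k⁻¹ : H).1 hcof (k⁻¹ : H).2
    have e : ((k⁻¹ : H) : G) * ((k * n * k⁻¹ : H) : G) * ((k⁻¹ : H) : G)⁻¹ = (n : G) := by
      push_cast
      group
    rwa [e] at h8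
  have hone : ∀ u : H, (u : H ⧸ N.subgroupOf H) = 1 ↔ (u : G) ∈ N := by
    intro u
    rw [QuotientGroup.eq_one_iff, Subgroup.mem_subgroupOf]
  have hcof : ∀ u : H, (u : H ⧸ N.subgroupOf H) ≠ 1 → Cof P H (u : G) := by
    intro u hu
    by_contra hcon
    exact hu ((hone u).2 ((hN _).2 ⟨u.2, hcon⟩))
  obtain ⟨PQ, hPQ⟩ : ∃ PQ : H ⧸ N.subgroupOf H → Prop, ∀ q, PQ q ↔
      ∃ u : H, (u : H ⧸ N.subgroupOf H) = q ∧ P (u : G) ∧ Cof P H (u : G) := ⟨_, fun q => Iff.rfl⟩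
  have hcomm := hHOL (H ⧸ N.subgroupOf H) PQ
    { mul := by
        intro g h hg hh
        rw [hPQ] at hg hh ⊢
        obtain ⟨u, rfl, hu, hcu⟩ := hg
        obtain ⟨v, rfl, hv, hcv⟩ := hh
        refine ⟨u * v, QuotientGroup.mk_mul _ u v, ?_, ?_⟩
        · exact hP.mul _ _ hu hv
        · by_contra hcon
          exact F8 _ _ hu hcu hv hcv ((hN _).2 ⟨(u * v).2, hcon⟩)
      tri := by
        intro q hq
        obtain ⟨u, rfl⟩ := QuotientGroup.mk_surjective q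
        have hcu := hcof u hq
        rcases hP.tri _ (hcu.ne_one hP) with h | h
        · left
          rw [hPQ]
          exact ⟨u, rfl, h, hcu⟩
        · right
          rw [hPQ]
          exact ⟨u⁻¹, QuotientGroup.mk_inv _ u, h, hcu.inv⟩
      anti := by
        intro q h1 h2
        rw [hPQ] at h1 h2
        obtain ⟨u, rfl, hu, hcu⟩ := h1
        obtain ⟨v, hv1, hv, hcv⟩ := h2
        refine F8 _ _ hu hcu hv hcv ?_
        have h8 := (hone (u * v)).1 (by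
          rw [QuotientGroup.mk_mul, hv1, mul_inv_cancel])
        exact h8 }
    (by
      intro g h hg
      rw [hPQ] at hg ⊢
      obtain ⟨u, rfl, hu, hcu⟩ := hg
      obtain ⟨k, rfl⟩ := QuotientGroup.mk_surjective h
      refine ⟨k * u * k⁻¹, ?_, ?_, ?_⟩
      · rw [QuotientGroup.mk_mul, QuotientGroup.mk_mul, QuotientGroup.mk_inv]
      · have h8 := h3 G P hP hC H _ ((k : G)⁻¹) hcu hu (H.inv_mem k.2)
        rwa [inv_inv] at h8
      · exact h4 G P hP hC H _ (k : G) hcu k.2)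
    (by
      intro g h hg
      rw [hPQ] at hg
      obtain ⟨u, rfl, hu, hcu⟩ := hg
      obtain ⟨v, rfl⟩ := QuotientGroup.mk_surjective h
      obtain ⟨m, hm⟩ := hcu.2 v v.2
      have hy : P ((v : G)⁻¹ * (u : G) ^ m.toNat) := by
        obtain ⟨k, hk⟩ : ∃ k : ℕ, (m.toNat : ℤ) = m + k :=
          ⟨((m.toNat : ℤ) - m).toNat, by omega⟩
        have e : (v : G)⁻¹ * (u : G) ^ m.toNat = ((v : G)⁻¹ * (u : G) ^ m) * (u : G) ^ k := by
          rw [← zpow_natCast (u : G) m.toNat, hk, zpow_add, zpow_natCast, mul_assoc]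
        rw [e]
        rcases Nat.eq_zero_or_pos k with h | h
        · rw [h, pow_zero, mul_one]
          exact hm
        · exact hP.mul _ _ hm (hP.pow hu h)
      refine ⟨m.toNat + 1, ?_⟩
      rw [hPQ]
      refine ⟨v⁻¹ * u ^ (m.toNat + 1), ?_, ?_, ?_⟩
      · rw [QuotientGroup.mk_mul, QuotientGroup.mk_inv, QuotientGroup.mk_pow]
      · have e : ((v⁻¹ * u ^ (m.toNat + 1) : H) : G) =
            ((v : G)⁻¹ * (u : G) ^ m.toNat) * (u : G) := by
          push_cast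
          rw [pow_succ, mul_assoc]
        rw [e]
        exact hP.mul _ _ hy hu
      · by_contra hcon
        have hn := (hN _).2 ⟨(v⁻¹ * u ^ (m.toNat + 1)).2, hcon⟩
        have h8 := (F7 _ _ hu hcu (N.inv_mem hn)).1
        have e : (u : G) * (((v⁻¹ * u ^ (m.toNat + 1) : H) : G))⁻¹ =
            ((v : G)⁻¹ * (u : G) ^ m.toNat)⁻¹ := by
          push_cast
          rw [pow_succ]
          group
        rw [e] at h8
        exact hP.anti _ hy h8)
  have hle : ⁅H, H⁆ ≤ N := by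
    rw [Subgroup.commutator_le]
    intro a ha b hb
    have h8 := hcomm ((⟨a, ha⟩ : H) : H ⧸ N.subgroupOf H) ((⟨b, hb⟩ : H) : H ⧸ N.subgroupOf H)
    have h9 := (hone (⟨a, ha⟩ * ⟨b, hb⟩ * ⟨a, ha⟩⁻¹ * ⟨b, hb⟩⁻¹)).1 (by
      rw [QuotientGroup.mk_mul, QuotientGroup.mk_mul, QuotientGroup.mk_mul, h8,
        QuotientGroup.mk_inv, QuotientGroup.mk_inv, mul_inv_cancel_right, mul_inv_cancel])
    exact h9
  exact ((hN c).1 (hle hc)).2

end Pool.Agent.IRO
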