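import Pool.Agent.helper97.IRO.Spec

set_option autoImplicit false

/-!
# Row GE3: maps that are good on a comb are words in the generators
-/

open MeasureTheory Pool.Agent.LOF

namespace Pool.Agent.IRO

theorem GE3_xxapp (i : ℕ) (x : ℝ) :
    xx i x = X0 (2 ^ i * (x - (1 - 1 / 2 ^ i))) / 2 ^ i + (1 - 1 / 2 ^ i) := rfl

theorem GE3_xxinv (i : ℕ) (x : ℝ) : ((xx i)⁻¹ : ℝ ≃o ℝ) x =
    (X0⁻¹ : ℝ ≃o ℝ) (2 ^ i * (x - (1 - 1 / 2 ^ i))) / 2 ^ i + (1 - 1 / 2 ^ i) := rfl

theorem GE3_X0inv (t : ℝ) : (X0⁻¹ : ℝ ≃o ℝ) t =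
    if t ≤ 0 then t else if t ≤ 1 / 4 then 2 * t else if t ≤ 1 / 2 then t + 1 / 4 else
    if t ≤ 1 then (t + 1) / 2 else t := rfl

theorem GE3_i1 {t : ℝ} (h : t ≤ 0) : (X0⁻¹ : ℝ ≃o ℝ) t = t := by
  rw [GE3_X0inv]; split_ifs; rfl

theorem GE3_i2 {t : ℝ} (h : 0 ≤ t) (h' : t ≤ 1 / 4) : (X0⁻¹ : ℝ ≃o ℝ) t = 2 * t := by
  rw [GE3_X0inv]; split_ifs <;> linarith

theorem GE3_i3 {t : ℝ} (h : 1 / 4 ≤ t) (h' : t ≤ 1 / 2) :
    (X0⁻¹ : ℝ ≃o ℝ) t = t + 1 / 4 := by
  rw [GE3_X0inv]; split_ifs <;> linarith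

theorem GE3_i4 {t : ℝ} (h : 1 / 2 ≤ t) (h' : t ≤ 1) :
    (X0⁻¹ : ℝ ≃o ℝ) t = (t + 1) / 2 := by
  rw [GE3_X0inv]; split_ifs <;> linarith

theorem GE3_dyadic (i : ℕ) : IsDyadic (1 - 1 / 2 ^ i) := by
  have h1 : IsDyadic ((1 : ℝ) / 2 ^ i) := ⟨1, i, by push_cast; rfl⟩
  have h2 := (IsDyadic.int 1).sub h1
  push_cast at h2
  exact h2

theorem GE3_xxF (i : ℕ) : xx i ∈ F := by
  have hm : (0:ℝ) < 2 ^ i := by positivity
  have hm1 : (1:ℝ) ≤ 2 ^ i := one_le_pow₀ (by norm_num)
  refine ⟨fun x hx => ?_, _, ?_,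
    ((Aff_pl i (1 - 1 / 2 ^ i)).inv).mul (X0_pl.mul (Aff_pl i (1 - 1 / 2 ^ i)))⟩
  · have e1 : (2:ℝ) ^ i * (x - (1 - 1 / 2 ^ i)) = 2 ^ i * (x - 1) + 1 := by
      field_simp
      ring
    have e2 : (2 ^ i * (x - 1) + 1) / 2 ^ i + (1 - 1 / 2 ^ i) = x := by
      field_simp
      ring
    rw [Set.mem_Ioo, not_and_or, not_lt, not_lt] at hx
    rw [GE3_xxapp, e1]
    have e3 : X0 (2 ^ i * (x - 1) + 1) = 2 ^ i * (x - 1) + 1 := by
      rw [X0_apply]
      rcases hx with hx | hx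
      · rw [if_pos]
        nlinarith
      · have : 0 ≤ 2 ^ i * (x - 1) := mul_nonneg hm.le (by linarith)
        split_ifs <;> linarith
    rw [e3, e2]
  · have hd1 : ∀ t, IsDyadic t → IsDyadic (((Aff i (1 - 1 / 2 ^ i))⁻¹ : ℝ ≃o ℝ) t) := by
      intro t ht
      rw [Aff_inv_apply]
      have : t / 2 ^ i = 2 ^ (-(i:ℤ)) * t := by
        rw [zpow_neg, zpow_natCast]; field_simp
      rw [this]
      exact (ht.pow_mul _).add (GE3_dyadic i)
    intro b hb
    rw [Finset.mem_union] at hb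
    rcases hb with hb | hb
    · rw [Finset.mem_union] at hb
      rcases hb with hb | hb
      · simp at hb
      · rw [Finset.mem_image] at hb
        obtain ⟨c, hc, rfl⟩ := hb
        refine hd1 _ ?_
        simp only [Finset.mem_insert, Finset.mem_singleton] at hc
        rcases hc with rfl | rfl | rfl | rfl
        · simpa using IsDyadic.int 0
        · exact ⟨1, 1, by norm_num⟩
        · exact ⟨3, 2, by norm_num⟩
        · simpa using IsDyadic.int 1
    · simp at hb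

/-- the values of the inverse of `xx i`, with `h = 2 ^ (-i)` -/
theorem GE3_s (i : ℕ) (h : ℝ) (hh : h = 1 / 2 ^ i) (x : ℝ) :
    (x ≤ 1 - h → ((xx i)⁻¹ : ℝ ≃o ℝ) x = x) ∧
    (1 - h ≤ x → x ≤ 1 - h + h / 4 → ((xx i)⁻¹ : ℝ ≃o ℝ) x = 2 * x - (1 - h)) ∧
    (1 - h + h / 4 ≤ x → x ≤ 1 - h / 2 → ((xx i)⁻¹ : ℝ ≃o ℝ) x = x + h / 4) ∧
    (1 - h / 2 ≤ x → x ≤ 1 → ((xx i)⁻¹ : ℝ ≃o ℝ) x = (1 + x) / 2) := by
  have hm : (0:ℝ) < 2 ^ i := by positivity
  have hpos : 0 < h := by rw [hh]; positivity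
  have hmh : (2:ℝ) ^ i * h = 1 := by rw [hh]; field_simp
  obtain ⟨t, ht⟩ : ∃ t, x = (1 - h) + h * t := ⟨2 ^ i * (x - (1 - h)), by
    rw [← mul_assoc, mul_comm h, hmh]; ring⟩
  have hform : ((xx i)⁻¹ : ℝ ≃o ℝ) x = (X0⁻¹ : ℝ ≃o ℝ) t * h + (1 - h) := by
    rw [GE3_xxinv, ← hh]
    have e1 : 2 ^ i * (x - (1 - h)) = t := by
      rw [ht]
      calc 2 ^ i * (1 - h + h * t - (1 - h)) = (2 ^ i * h) * t := by ring
        _ = t := by rw [hmh, one_mul]
    rw [e1, div_eq_mul_one_div, ← hh]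
  rw [hform, ht]
  refine ⟨fun h1 => ?_, fun h1 h2 => ?_, fun h1 h2 => ?_, fun h1 h2 => ?_⟩
  · rw [GE3_i1]
    · ring
    · by_contra hc
      push Not at hc
      have := mul_pos hpos hc
      linarith
  · rw [GE3_i2]
    · ring
    · by_contra hc
      push Not at hc
      have := mul_pos hpos (neg_pos.2 hc)
      linarith
    · by_contra hc
      push Not at hc
      have := mul_pos hpos (sub_pos.2 hc)
      linarith
  · rw [GE3_i3]
    · ring
    · by_contra hc
      push Not at hc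
      have := mul_pos hpos (sub_pos.2 hc)
      linarith
    · by_contra hc
      push Not at hc
      have := mul_pos hpos (sub_pos.2 hc)
      linarith
  · rw [GE3_i4]
    · ring
    · by_contra hc
      push Not at hc
      have := mul_pos hpos (sub_pos.2 hc)
      linarith
    · by_contra hc
      push Not at hc
      have := mul_pos hpos (sub_pos.2 hc)
      linarith

theorem GE3_merge (f : ℝ ≃o ℝ) (x y z : ℝ) (hxy : x < y) (hmid : y - x = z - y)
    (h1 : ∃ (j : ℤ) (c : ℝ), ∀ w ∈ Set.Icc x y, f w = (2 : ℝ) ^ j * w + c)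
    (h2 : ∃ (j : ℤ) (c : ℝ), ∀ w ∈ Set.Icc y z, f w = (2 : ℝ) ^ j * w + c)
    (m k : ℕ) (e1 : f x = (2 * (k : ℝ)) / 2 ^ m) (e2 : f y = (2 * (k : ℝ) + 1) / 2 ^ m)
    (e3 : f z = (2 * (k : ℝ) + 2) / 2 ^ m) (hz : f z ≤ 1) : GoodOn f x z := by
  obtain ⟨j1, c1, h1⟩ := h1
  obtain ⟨j2, c2, h2⟩ := h2
  have hyz : y < z := by linarith
  have a1 := h1 x ⟨le_rfl, hxy.le⟩
  have a2 := h1 y ⟨hxy.le, le_rfl⟩
  have b1 := h2 y ⟨le_rfl, hyz.le⟩
  have b2 := h2 z ⟨hyz.le, le_rfl⟩
  have d1 : f y - f x = 1 / 2 ^ m := by rw [e1, e2]; ring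
  have d2 : f z - f y = 1 / 2 ^ m := by rw [e2, e3]; ring
  have hj : (2:ℝ) ^ j1 = 2 ^ j2 := by
    have hne : y - x ≠ 0 := by linarith
    have h3 : (2:ℝ) ^ j1 * (y - x) = 2 ^ j2 * (y - x) := by
      have h4 : (2:ℝ) ^ j1 * (y - x) = 1 / 2 ^ m := by rw [← d1, a1, a2]; ring
      have h5 : (2:ℝ) ^ j2 * (y - x) = 1 / 2 ^ m := by rw [hmid, ← d2, b1, b2]; ring
      rw [h4, h5]
    exact mul_right_cancel₀ hne h3
  have hc : c1 = c2 := by
    have h3 := a2.symm.trans b1
    rw [hj] at h3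
    linarith
  refine ⟨⟨j1, c1, fun w hw => ?_⟩, ?_⟩
  · rcases le_total w y with h | h
    · exact h1 w ⟨hw.1, h⟩
    · rw [hj, hc]
      exact h2 w ⟨h, hw.2⟩
  · rcases m with _ | m
    · exfalso
      rw [e3, pow_zero, div_one] at hz
      have : (0:ℝ) ≤ k := Nat.cast_nonneg k
      linarith
    · refine ⟨m, k, ?_, ?_⟩
      · rw [e1, pow_succ]
        have : (2:ℝ) ^ m ≠ 0 := by positivity
        field_simp
      · rw [e3, pow_succ]
        have : (2:ℝ) ^ m ≠ 0 := by positivity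
        field_simp

theorem GE3_comp (g s : ℝ ≃o ℝ) (x y : ℝ) (j : ℤ) (c : ℝ)
    (hs : ∀ z ∈ Set.Icc x y, s z = (2 : ℝ) ^ j * z + c) (hg : GoodOn g (s x) (s y)) :
    GoodOn (g * s) x y := by
  obtain ⟨⟨l, d, h1⟩, m, k, h2, h3⟩ := hg
  refine ⟨⟨l + j, 2 ^ l * c + d, fun z hz => ?_⟩, m, k, h2, h3⟩
  show g (s z) = _
  rw [h1 _ ⟨s.monotone hz.1, s.monotone hz.2⟩, hs z hz, zpow_add₀ (by norm_num)]
  ring

theorem GE3_cblt {N i : ℕ} (h : i < N) : cb N i = 1 - 1 / 2 ^ i := if_pos h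

theorem GE3_cbge {N i : ℕ} (h : N ≤ i) : cb N i = 1 := if_neg (not_lt.2 h)

theorem GE3 (hG1 : GE1_stmt) (hG2 : GE2_stmt) : GE3_stmt := by
  intro N g hN
  induction N, hN using Nat.le_induction generalizing g with
  | base =>
    intro hg h
    have h0 : g 0 = 0 := F.out hg (by simp)
    have h1 : g 1 = 1 := F.out hg (by simp)
    obtain ⟨⟨j, c, hj⟩, -⟩ := h 0 (by norm_num)
    rw [GE3_cblt (by norm_num), GE3_cbge (by norm_num), pow_zero, div_one, sub_self] at hj
    have a0 := hj 0 ⟨le_rfl, zero_le_one⟩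
    have a1 := hj 1 ⟨zero_le_one, le_rfl⟩
    have hg1 : g = 1 := by
      ext x
      show g x = x
      by_cases hx : x ∈ Set.Ioo (0:ℝ) 1
      · rw [hj x ⟨hx.1.le, hx.2.le⟩]
        rw [h0] at a0
        rw [h1] at a1
        have hc : c = 0 := by linarith
        have h2 : (2:ℝ) ^ j = 1 := by linarith
        rw [hc, h2]; ring
      · exact F.out hg hx
    rw [hg1]
    exact Subgroup.one_mem _
  | succ M hM ih =>
    intro hg h
    have h0 : g 0 = 0 := F.out hg (by simp)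
    have h1 : g 1 = 1 := F.out hg (by simp)
    have hle1 : ∀ x, x ≤ 1 → g x ≤ 1 := fun x hx => by
      have := g.monotone hx
      rwa [h1] at this
    obtain ⟨i, m, k, hi, e1, e2, e3⟩ := hG2 (M + 1) (fun i => g (cb (M + 1) i)) (by omega)
      (by
        show g (cb (M + 1) 0) = 0
        rw [GE3_cblt (by omega), pow_zero, div_one, sub_self, h0])
      (by
        show g (cb (M + 1) (M + 1)) = 1
        rw [GE3_cbge le_rfl, h1])
      (fun i hi => (h i hi).2)
    set u : ℝ := 1 / 2 ^ i with hu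
    have hupos : 0 < u := by rw [hu]; positivity
    have hu1 : (1:ℝ) / 2 ^ (i + 1) = u / 2 := by rw [hu, pow_succ]; field_simp
    have hu2 : (1:ℝ) / 2 ^ (i + 2) = u / 4 := by
      rw [hu, pow_succ, pow_succ]; field_simp; norm_num
    have c0 : cb (M + 1) i = 1 - u := GE3_cblt (by omega)
    have c1 : cb (M + 1) (i + 1) = 1 - u / 2 := by rw [GE3_cblt (by omega), hu1]
    have g0 := (h i (by omega)).1
    have g1 := (h (i + 1) (by omega)).1
    rw [c0] at e1
    rw [c1] at e2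
    rw [c0, c1] at g0
    rw [c1] at g1
    rcases (show i + 2 = M + 1 ∨ i + 2 < M + 1 by omega) with hc | hc
    · -- the last two intervals
      have c2 : cb (M + 1) (i + 2) = 1 := GE3_cbge (by omega)
      rw [c2] at e3
      rw [show i + 1 + 1 = i + 2 from rfl, c2] at g1
      refine ih g hg fun j hj => ?_
      rcases (show j < i ∨ j = i by omega) with hji | rfl
      · have := h j (by omega)
        rw [GE3_cblt (by omega), GE3_cblt (by omega)] at this
        rwa [GE3_cblt (by omega), GE3_cblt (by omega)]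
      · rw [GE3_cblt (by omega), GE3_cbge (by omega), ← hu]
        exact GE3_merge g (1 - u) (1 - u / 2) 1 (by linarith) (by ring) g0 g1 m k e1 e2 e3 h1.le
    · have c2 : cb (M + 1) (i + 2) = 1 - u / 4 := by rw [GE3_cblt (by omega), hu2]
      rw [c2] at e3
      rw [show i + 1 + 1 = i + 2 from rfl, c2] at g1
      have hs := GE3_s i u hu
      have hgs : g * (xx i)⁻¹ ∈ F := F.mul_mem hg (F.inv_mem (GE3_xxF i))
      have key := ih (g * (xx i)⁻¹) hgs (fun j hj => by
        rcases lt_trichotomy j i with hji | rfl | hji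
        · have h3 := h j (by omega)
          have hb : (1:ℝ) - 1 / 2 ^ (j + 1) ≤ 1 - u := by
            rw [hu]
            have : (1:ℝ) / 2 ^ i ≤ 1 / 2 ^ (j + 1) :=
              one_div_le_one_div_of_le (by positivity)
                (pow_le_pow_right₀ (by norm_num) (by omega))
            linarith
          have ha : (1:ℝ) - 1 / 2 ^ j ≤ 1 - 1 / 2 ^ (j + 1) := by
            have : (1:ℝ) / 2 ^ (j + 1) ≤ 1 / 2 ^ j :=
              one_div_le_one_div_of_le (by positivity)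
                (pow_le_pow_right₀ (by norm_num) (by omega))
            linarith
          rw [GE3_cblt (by omega), GE3_cblt (by omega)] at h3
          rw [GE3_cblt (by omega), GE3_cblt (by omega)]
          refine GE3_comp g _ _ _ 0 0 (fun z hz => ?_) ?_
          · rw [(hs z).1 (hz.2.trans hb), zpow_zero]; ring
          · rw [(hs _).1 (ha.trans hb), (hs _).1 hb]
            exact h3
        · rw [GE3_cblt (by omega), GE3_cblt (by omega), ← hu, hu1]
          obtain ⟨j1, d1, g0⟩ := g0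
          obtain ⟨j2, d2, g1⟩ := g1
          have v0 : ((xx j)⁻¹ : ℝ ≃o ℝ) (1 - u) = 1 - u := (hs _).1 le_rfl
          have v1 : ((xx j)⁻¹ : ℝ ≃o ℝ) (1 - u + u / 4) = 1 - u / 2 := by
            rw [(hs _).2.1 (by linarith) le_rfl]; ring
          have v2 : ((xx j)⁻¹ : ℝ ≃o ℝ) (1 - u / 2) = 1 - u / 4 := by
            rw [(hs _).2.2.1 (by linarith) le_rfl]; ring
          refine GE3_merge (g * (xx j)⁻¹) (1 - u) (1 - u + u / 4) (1 - u / 2) (by linarith)
            (by ring) ⟨j1 + 1, d1 - 2 ^ j1 * (1 - u), fun w hw => ?_⟩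
            ⟨j2, 2 ^ j2 * (u / 4) + d2, fun w hw => ?_⟩ m k ?_ ?_ ?_ ?_
          · show g (((xx j)⁻¹ : ℝ ≃o ℝ) w) = _
            rw [(hs w).2.1 hw.1 hw.2, g0 _ ⟨by linarith [hw.1], by linarith [hw.2]⟩,
              zpow_add₀ (by norm_num), zpow_one]
            ring
          · show g (((xx j)⁻¹ : ℝ ≃o ℝ) w) = _
            rw [(hs w).2.2.1 hw.1 hw.2, g1 _ ⟨by linarith [hw.1], by linarith [hw.2]⟩]
            ring
          · show g (((xx j)⁻¹ : ℝ ≃o ℝ) _) = _
            rw [v0, e1]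
          · show g (((xx j)⁻¹ : ℝ ≃o ℝ) _) = _
            rw [v1, e2]
          · show g (((xx j)⁻¹ : ℝ ≃o ℝ) _) = _
            rw [v2, e3]
          · show g (((xx j)⁻¹ : ℝ ≃o ℝ) _) ≤ _
            rw [v2]
            exact hle1 _ (by linarith)
        · -- `j > i`
          have h3 := h (j + 1) (by omega)
          have hp : (0:ℝ) < 1 / 2 ^ j := by positivity
          have hlow : 1 - u / 2 ≤ (1:ℝ) - 1 / 2 ^ j := by
            rw [← hu1]
            have : (1:ℝ) / 2 ^ j ≤ 1 / 2 ^ (i + 1) :=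
              one_div_le_one_div_of_le (by positivity)
                (pow_le_pow_right₀ (by norm_num) (by omega))
            linarith
          have hy1 : cb M (j + 1) ≤ 1 := by
            rcases (show j + 1 < M ∨ M ≤ j + 1 by omega) with hjM | hjM
            · rw [GE3_cblt hjM]
              have : (0:ℝ) < 1 / 2 ^ (j + 1) := by positivity
              linarith
            · rw [GE3_cbge hjM]
          have hxy : 1 - 1 / 2 ^ j ≤ cb M (j + 1) := by
            rcases (show j + 1 < M ∨ M ≤ j + 1 by omega) with hjM | hjM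
            · rw [GE3_cblt hjM]
              have : (1:ℝ) / 2 ^ (j + 1) ≤ 1 / 2 ^ j :=
                one_div_le_one_div_of_le (by positivity)
                  (pow_le_pow_right₀ (by norm_num) (by omega))
              linarith
            · rw [GE3_cbge hjM]
              linarith
          have hsx : ((xx i)⁻¹ : ℝ ≃o ℝ) (1 - 1 / 2 ^ j) = cb (M + 1) (j + 1) := by
            rw [(hs _).2.2.2 hlow (by linarith), GE3_cblt (by omega), pow_succ]
            have : (2:ℝ) ^ j ≠ 0 := by positivity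
            field_simp
            ring
          have hsy : ((xx i)⁻¹ : ℝ ≃o ℝ) (cb M (j + 1)) = cb (M + 1) (j + 1 + 1) := by
            rw [(hs _).2.2.2 (hlow.trans hxy) hy1]
            rcases (show j + 1 < M ∨ M ≤ j + 1 by omega) with hjM | hjM
            · rw [GE3_cblt hjM, GE3_cblt (by omega), pow_succ (2:ℝ) (j + 1)]
              have : (2:ℝ) ^ (j + 1) ≠ 0 := by positivity
              field_simp
              ring
            · rw [GE3_cbge hjM, GE3_cbge (by omega)]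
              norm_num
          rw [GE3_cblt hj]
          refine GE3_comp g _ _ _ (-1) (1 / 2) (fun z hz => ?_) ?_
          · rw [(hs z).2.2.2 (hlow.trans hz.1) (hz.2.trans hy1)]
            rw [show (2:ℝ) ^ (-1:ℤ) = 1 / 2 by norm_num]
            ring
          · rw [hsx, hsy]
            exact h3)
      have h4 := Subgroup.mul_mem _ key (hG1 i)
      rwa [inv_mul_cancel_right] at h4

end Pool.Agent.IRO
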